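import Mathlib

set_option autoImplicit false

open Polynomial

namespace Pool.Agent.Results.MP_424c76_an.Counterexample

def shadow (P : ℂ[X]) : Set ℂ :=
  closure {z | ∃ n m : ℕ, 1 ≤ n ∧ m ≤ n * P.natDegree ∧ (derivative^[m] (P ^ n)).IsRoot z}

def ConvexPos (P : ℂ[X]) : Prop :=
  P.roots.Nodup ∧ ∀ z : ℂ, P.IsRoot z → z ∉ convexHull ℝ ({w | P.IsRoot w} \ {z})

def Regular (P : ℂ[X]) : Prop :=
  ∃ c u : ℂ, u ≠ 0 ∧ {w | P.IsRoot w} = {w | ∃ ζ : ℂ, ζ ^ P.natDegree = 1 ∧ w = c + u * ζ}

def RR (g : ℂ[X]) : Prop := ∀ w : ℂ, g.IsRoot w → w.im = 0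

theorem rr_deriv {g : ℂ[X]} (hg : RR g) (h0 : derivative g ≠ 0) : RR (derivative g) := by
  intro w hw
  have hd : 0 < g.degree := by
    by_contra hc
    apply h0
    rw [eq_C_of_degree_le_zero (not_lt.1 hc), derivative_C]
  have h1 : w ∈ (derivative g).rootSet ℂ := by
    rw [mem_rootSet]; exact ⟨h0, by simpa using hw⟩
  have h2 := rootSet_derivative_subset_convexHull_rootSet hd h1
  have h3 : convexHull ℝ (g.rootSet ℂ) ⊆ {w : ℂ | w.im = 0} := by
    refine convexHull_min ?_ (convex_hyperplane (f := Complex.im) Complex.imLm.isLinear 0)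
    intro v hv
    rw [mem_rootSet] at hv
    exact hg v (by simpa using hv.2)
  exact h3 h2

def Good (f : ℂ[X]) : Prop :=
  ∃ g : ℂ[X], g ≠ 0 ∧ RR g ∧ (f = g.comp (X ^ 2) ∨ f = X * g.comp (X ^ 2))

theorem good_deriv {f : ℂ[X]} (hf : Good f) (h0 : derivative f ≠ 0) : Good (derivative f) := by
  obtain ⟨g, hg0, hg, rfl | rfl⟩ := hf
  · have e : derivative (g.comp (X ^ 2)) = X * (C 2 * derivative g).comp (X ^ 2) := by
      rw [derivative_comp, derivative_X_pow]
      simp only [mul_comp, C_comp, Nat.cast_ofNat]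
      norm_num
      ring
    have h1 : derivative g ≠ 0 := by
      intro h; apply h0; rw [e, h]; simp
    refine ⟨C 2 * derivative g, mul_ne_zero (by simp) h1, ?_, Or.inr e⟩
    intro w hw
    apply rr_deriv hg h1
    simpa using hw
  · have e : derivative (X * g.comp (X ^ 2)) = (g + C 2 * X * derivative g).comp (X ^ 2) := by
      rw [derivative_mul, derivative_comp, derivative_X_pow]
      simp only [mul_comp, C_comp, add_comp, X_comp, derivative_X, Nat.cast_ofNat]
      norm_num
      ring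
    have h1 : g + C 2 * X * derivative g ≠ 0 := by
      intro h; apply h0; rw [e, h]; simp
    refine ⟨_, h1, ?_, Or.inl e⟩
    have e2 : derivative (X * g ^ 2) = g * (g + C 2 * X * derivative g) := by
      rw [derivative_mul, derivative_pow]
      simp only [derivative_X, Nat.cast_ofNat]
      norm_num
      ring
    have h2 : RR (X * g ^ 2) := by
      intro w hw
      simp only [IsRoot.def, eval_mul, eval_X, eval_pow, mul_eq_zero] at hw
      rcases hw with rfl | hw
      · simp
      · exact hg w (pow_eq_zero_iff two_ne_zero |>.1 hw)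
    intro w hw
    apply rr_deriv h2 (by rw [e2]; exact mul_ne_zero hg0 h1)
    rw [e2, IsRoot.def, eval_mul, hw.eq_zero, mul_zero]

theorem good_root {f : ℂ[X]} (hf : Good f) {z : ℂ} (hz : f.IsRoot z) : z.re * z.im = 0 := by
  obtain ⟨g, _, hg, h⟩ := hf
  have key : g.IsRoot (z ^ 2) → z.re * z.im = 0 := by
    intro h1
    have := hg _ h1
    rw [sq, Complex.mul_im] at this
    linarith
  rcases h with rfl | rfl
  · exact key (by simpa [eval_comp] using hz)
  · simp only [IsRoot.def, eval_mul, eval_X, mul_eq_zero, eval_comp, eval_pow] at hz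
    rcases hz with rfl | hz
    · simp
    · exact key hz

theorem iter_ne {f : ℂ[X]} (hf : f ≠ 0) {m : ℕ} (hm : m ≤ f.natDegree) :
    derivative^[m] f ≠ 0 := by
  intro h
  have h1 := congrArg (fun p => coeff p (f.natDegree - m)) h
  simp only [coeff_iterate_derivative, coeff_zero, Nat.sub_add_cancel hm, nsmul_eq_mul,
    mul_eq_zero, Nat.cast_eq_zero] at h1
  rcases h1 with h1 | h1
  · rw [Nat.descFactorial_eq_zero_iff_lt] at h1; omega
  · exact hf (leadingCoeff_eq_zero.1 h1)

theorem good_iter {f : ℂ[X]} (hf0 : f ≠ 0) (hf : Good f) :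
    ∀ m : ℕ, m ≤ f.natDegree → Good (derivative^[m] f) := by
  intro m
  induction m with
  | zero => intro _; exact hf
  | succ m ih =>
    intro hm
    have h1 := iter_ne hf0 hm
    rw [Function.iterate_succ_apply'] at h1 ⊢
    exact good_deriv (ih (by omega)) h1

noncomputable def P0 : ℂ[X] := (X ^ 2 - C 1) * (X ^ 2 - C (-4))

theorem P0_deg : P0.natDegree = 4 := by
  rw [P0, natDegree_mul (X_pow_sub_C_ne_zero two_pos _) (X_pow_sub_C_ne_zero two_pos _),
    natDegree_X_pow_sub_C, natDegree_X_pow_sub_C]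
  all_goals rfl

theorem P0_ne : P0 ≠ 0 := by
  intro h; have := P0_deg; rw [h] at this; simp at this

theorem P0_fac : P0 = (X - C 1) * (X - C (-1)) * (X - C (2 * Complex.I)) *
    (X - C (-(2 * Complex.I))) := by
  have h : (C (2 * Complex.I) : ℂ[X]) ^ 2 = C (-4) := by
    rw [← C_pow, mul_pow, Complex.I_sq]; norm_num
  rw [P0, ← h]
  simp only [map_neg, map_one]
  ring

theorem P0_root (z : ℂ) : P0.IsRoot z ↔
    z = 1 ∨ z = -1 ∨ z = 2 * Complex.I ∨ z = -(2 * Complex.I) := by
  rw [P0_fac]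
  simp only [IsRoot.def, eval_mul, eval_sub, eval_X, eval_C, mul_eq_zero, sub_eq_zero, or_assoc]

theorem not_hull (z : ℂ) (a b : ℝ)
    (h : ∀ w : ℂ, P0.IsRoot w → w ≠ z → a * w.re + b * w.im < a * z.re + b * z.im) :
    z ∉ convexHull ℝ ({w | P0.IsRoot w} \ {z}) := by
  intro hz
  have hl : IsLinearMap ℝ (fun w : ℂ => a * w.re + b * w.im) :=
    ⟨fun x y => by simp; ring, fun c x => by simp; ring⟩
  have := convexHull_min (t := {w : ℂ | a * w.re + b * w.im < a * z.re + b * z.im})
    (fun w hw => h w hw.1 hw.2) (convex_halfSpace_lt hl _) hz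
  exact lt_irrefl (a * z.re + b * z.im) this

theorem result : ∃ P : ℂ[X], P.natDegree = 4 ∧ ConvexPos P ∧ ¬ Regular P ∧
    ¬ ∃ U : Set ℂ, IsOpen U ∧ U.Nonempty ∧ closure U = shadow P := by
  refine ⟨P0, P0_deg, ⟨?_, ?_⟩, ?_, ?_⟩
  · rw [P0_fac, roots_mul (P0_fac ▸ P0_ne), roots_mul, roots_mul]
    · simp only [roots_X_sub_C]
      simp [Complex.ext_iff]
      norm_num
    · exact mul_ne_zero (X_sub_C_ne_zero _) (X_sub_C_ne_zero _)
    · exact mul_ne_zero (mul_ne_zero (X_sub_C_ne_zero _) (X_sub_C_ne_zero _)) (X_sub_C_ne_zero _)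
  · intro z hz
    rcases (P0_root z).1 hz with rfl | rfl | rfl | rfl
    · apply not_hull _ 1 0
      intro w hw hne
      rcases (P0_root w).1 hw with rfl | rfl | rfl | rfl <;> simp at hne ⊢
    · apply not_hull _ (-1) 0
      intro w hw hne
      rcases (P0_root w).1 hw with rfl | rfl | rfl | rfl <;> simp at hne ⊢
    · apply not_hull _ 0 1
      intro w hw hne
      rcases (P0_root w).1 hw with rfl | rfl | rfl | rfl <;> simp at hne ⊢
    · apply not_hull _ 0 (-1)
      intro w hw hne
      rcases (P0_root w).1 hw with rfl | rfl | rfl | rfl <;> simp at hne ⊢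
  · rintro ⟨c, u, _, h⟩
    have key : ∀ w : ℂ, P0.IsRoot w → Complex.normSq (w - c) = Complex.normSq u := by
      intro w hw
      have h1 : w ∈ {w | P0.IsRoot w} := hw
      rw [h] at h1
      obtain ⟨ζ, h2, rfl⟩ := h1
      have h3 : ‖ζ‖ = 1 := Complex.norm_eq_one_of_pow_eq_one h2 (by rw [P0_deg]; norm_num)
      rw [add_sub_cancel_left, map_mul, Complex.normSq_eq_norm_sq ζ, h3]; simp
    have k1 := key 1 ((P0_root _).2 (by simp))
    have k2 := key (-1) ((P0_root _).2 (by simp))
    have k3 := key (2 * Complex.I) ((P0_root _).2 (by simp))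
    have k4 := key (-(2 * Complex.I)) ((P0_root _).2 (by simp))
    simp only [Complex.normSq_apply, Complex.sub_re, Complex.sub_im] at k1 k2 k3 k4
    simp at k1 k2 k3 k4
    nlinarith
  · rintro ⟨U, hU, ⟨z, hz⟩, hc⟩
    have hcl : IsClosed {z : ℂ | z.re * z.im = 0} :=
      isClosed_eq (by fun_prop) continuous_const
    have hsub : shadow P0 ⊆ {z : ℂ | z.re * z.im = 0} := by
      refine closure_minimal ?_ hcl
      rintro w ⟨n, m, _, hm, hw⟩
      refine good_root (good_iter (pow_ne_zero n P0_ne) ?_ m (by rwa [natDegree_pow])) hw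
      refine ⟨((X - C 1) * (X - C (-4))) ^ n, pow_ne_zero _
        (mul_ne_zero (X_sub_C_ne_zero _) (X_sub_C_ne_zero _)), ?_, Or.inl ?_⟩
      · intro v hv
        simp only [IsRoot.def, eval_pow, eval_mul, eval_sub, eval_X, eval_C] at hv
        rcases mul_eq_zero.1 (eq_zero_of_pow_eq_zero hv) with h | h
        · rw [sub_eq_zero.1 h]; simp
        · rw [sub_eq_zero.1 h]; simp
      · simp only [P0, pow_comp, mul_comp, sub_comp, X_comp, C_comp]
    have hUs : U ⊆ {z : ℂ | z.re * z.im = 0} := subset_closure.trans (hc ▸ hsub)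
    obtain ⟨ε, hε, hb⟩ := Metric.isOpen_iff.1 hU z hz
    have hm : ∀ s t : ℝ, |s| < ε / 2 → |t| < ε / 2 → (z.re + s) * (z.im + t) = 0 := by
      intro s t hs ht
      have h1 : z + (s + t * Complex.I) ∈ Metric.ball z ε := by
        rw [Metric.mem_ball, dist_eq_norm, add_sub_cancel_left]
        refine (norm_add_le _ _).trans_lt ?_
        simp only [Complex.norm_real, norm_mul, Complex.norm_I, mul_one, Real.norm_eq_abs]
        linarith
      simpa using hUs (hb h1)
    have a0 : |(0 : ℝ)| < ε / 2 := by simpa using hε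
    have a1 : |ε / 4| < ε / 2 := by rw [abs_of_pos (by positivity)]; linarith
    have h1 := hm 0 0 a0 a0
    have h2 := hm 0 _ a0 a1
    have h3 := hm _ 0 a1 a0
    have h4 := hm _ _ a1 a1
    nlinarith

end Pool.Agent.Results.MP_424c76_an.Counterexample
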